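import Mathlib

set_option autoImplicit false
set_option linter.unusedSectionVars false
set_option linter.unusedVariables false

/-!
Truncated exponentials of nilpotent operators, exponential series in finite dimension.
-/

namespace Pool.Agent.W42.RL

open Finset Filter Topology

section

variable {V : Type*} [AddCommGroup V] [Module ℝ V]

/-- truncated exponential series of `a B` -/
noncomputable def tex (c : ℕ) (B : Module.End ℝ V) (a : ℝ) : Module.End ℝ V :=
  ∑ l ∈ range c, (a ^ l / l.factorial) • B ^ l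

theorem tex_apply (c : ℕ) (B : Module.End ℝ V) (a : ℝ) (v : V) :
    tex c B a v = ∑ l ∈ range c, (a ^ l / l.factorial) • (B ^ l) v := by
  unfold tex
  rw [LinearMap.sum_apply]
  rfl

theorem tex_add (c : ℕ) (B : Module.End ℝ V) (hB : B ^ c = 0) (a b : ℝ) :
    tex c B (a + b) = tex c B a * tex c B b := by
  let _ : Module ℚ (Module.End ℝ V) := Module.compHom _ (algebraMap ℚ ℝ)
  have hsm : ∀ (q : ℚ) (f : Module.End ℝ V), q • f = (q : ℝ) • f := fun q f => rfl
  have key : ∀ a : ℝ, IsNilpotent.exp (a • B) = tex c B a := by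
    intro a
    rw [IsNilpotent.exp_eq_sum (k := c) (by rw [smul_pow, hB, smul_zero])]
    unfold tex
    refine sum_congr rfl fun l _ => ?_
    rw [hsm, smul_pow, smul_smul]
    congr 1
    push_cast
    ring
  rw [← key, ← key, ← key, add_smul]
  apply IsNilpotent.exp_add_of_commute
  · exact ((Commute.refl B).smul_left a).smul_right b
  · exact ⟨c, by rw [smul_pow, hB, smul_zero]⟩
  · exact ⟨c, by rw [smul_pow, hB, smul_zero]⟩

theorem tex_zero (c : ℕ) (hc : 1 ≤ c) (B : Module.End ℝ V) : tex c B 0 = 1 := by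
  unfold tex
  obtain ⟨c', rfl⟩ : ∃ c', c = c' + 1 := ⟨c - 1, by omega⟩
  rw [sum_range_succ']
  simp

end

section

variable {V : Type} [AddCommGroup V] [Module ℝ V] [FiniteDimensional ℝ V] [TopologicalSpace V]
  [IsTopologicalAddGroup V] [ContinuousSMul ℝ V] [T2Space V]

/-- the exponential series converges, with values in every invariant subspace -/
theorem exists_exp (B : Module.End ℝ V) (v : V) :
    ∃ w, HasSum (fun l : ℕ => ((l.factorial : ℝ)⁻¹) • (B ^ l) v) w := by
  set n := Module.finrank ℝ V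
  obtain ⟨e⟩ : Nonempty (V ≃L[ℝ] EuclideanSpace ℝ (Fin n)) :=
    ⟨ContinuousLinearEquiv.ofFinrankEq (by simp [n])⟩
  set W := EuclideanSpace ℝ (Fin n)
  set B' : W →L[ℝ] W := LinearMap.toContinuousLinearMap (e.toLinearEquiv.toLinearMap ∘ₗ B ∘ₗ e.symm.toLinearEquiv.toLinearMap) with hB'
  have h1 := NormedSpace.exp_series_hasSum_exp' (𝕂 := ℝ) B'
  have h2 : HasSum (fun l : ℕ => ((l.factorial : ℝ)⁻¹) • (B' ^ l) (e v)) (NormedSpace.exp B' (e v)) := by
    have := h1.mapL (ContinuousLinearMap.apply ℝ W (e v))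
    simpa using this
  have hpow : ∀ l : ℕ, (B' ^ l) (e v) = e ((B ^ l) v) := by
    intro l
    induction l with
    | zero => simp
    | succ l ih =>
      rw [pow_succ', pow_succ', mul_apply_eq_comp, ih, Module.End.mul_apply]
      simp [hB']
  have h3 := h2.mapL (e.symm : W →L[ℝ] V)
  refine ⟨_, h3.congr_fun ?_⟩
  intro l
  simp [hpow]

theorem hasSum_mem (K : Submodule ℝ V) (u : ℕ → V) (hu : ∀ l, u l ∈ K) (w : V) (h : HasSum u w) :
    w ∈ K := by
  have hc : IsClosed (K : Set V) := Submodule.closed_of_finiteDimensional K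
  exact hc.mem_of_tendsto h (Eventually.of_forall fun s => K.sum_mem fun l _ => hu l)

end

end Pool.Agent.W42.RL
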