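import Mathlib
import Pool.Agent.W42.RL.Alg
import Pool.Agent.W42.RN.Rel

set_option autoImplicit false
set_option linter.unusedSectionVars false
set_option linter.unusedVariables false

/-!
Measure preserving actions of Lie groups in exponential coordinates.
-/

namespace Pool.Agent.W42.RL

open Finset Filter Topology MeasureTheory Pool.Agent.W42.RN

variable {X : Type} [MeasurableSpace X]
variable {𝔤 : Type} [LieRing 𝔤] [LieAlgebra ℝ 𝔤] [FiniteDimensional ℝ 𝔤] [TopologicalSpace 𝔤]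
  [IsTopologicalAddGroup 𝔤] [ContinuousSMul ℝ 𝔤] [T2Space 𝔤]

/-- `E Y` is the action of `exp Y` -/
structure LieAct (μ : Measure X) (E : 𝔤 → X → X) : Prop where
  mp : ∀ Y, MeasurePreserving (E Y) μ μ
  zero : Same μ (E 0) id
  line : ∀ (Y : 𝔤) (s t : ℝ), Same μ (E ((s + t) • Y)) (E (s • Y) ∘ E (t • Y))
  conj : ∀ Y Z Z' : 𝔤,
    HasSum (fun l : ℕ => ((l.factorial : ℝ)⁻¹) • ((LieAlgebra.ad ℝ 𝔤 Y) ^ l) Z) Z' →
    Same μ (E Y ∘ E Z) (E Z' ∘ E Y)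
  cont : ∀ f : X → ℂ, Bd f → ∀ Y₀,
    Tendsto (fun Y => ∫ p, ‖f (E Y p) - f (E Y₀ p)‖ ∂μ) (𝓝 Y₀) (𝓝 0)
  trotter : ∀ (Y Z : 𝔤) (f : X → ℂ), Bd f → Tendsto (fun n : ℕ =>
    ∫ p, ‖f ((E ((n : ℝ)⁻¹ • Y) ∘ E ((n : ℝ)⁻¹ • Z))^[n] p) - f (E (Y + Z) p)‖ ∂μ) atTop (𝓝 0)

/-- the measurable sets invariant under the `E Y`, `Y ∈ K` -/
def mK (μ : Measure X) (E : 𝔤 → X → X) (K : Set 𝔤) : MeasurableSpace X where
  MeasurableSet' A := MeasurableSet A ∧ ∀ Y ∈ K, E Y ⁻¹' A =ᵐ[μ] A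
  measurableSet_empty := ⟨MeasurableSet.empty, fun Y _ => by simp⟩
  measurableSet_compl A h := ⟨h.1.compl, fun Y hY => (h.2 Y hY).compl⟩
  measurableSet_iUnion A h := ⟨MeasurableSet.iUnion fun i => (h i).1, fun Y hY => by
    rw [Set.preimage_iUnion]
    exact Filter.EventuallyEq.countable_iUnion fun i => (h i).2 Y hY⟩

theorem mem_mK {μ : Measure X} {E : 𝔤 → X → X} {K : Set 𝔤} {A : Set X} :
    MeasurableSet[mK μ E K] A ↔ MeasurableSet A ∧ ∀ Y ∈ K, E Y ⁻¹' A =ᵐ[μ] A := Iff.rfl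

theorem mK_le (μ : Measure X) (E : 𝔤 → X → X) (K : Set 𝔤) : mK μ E K ≤ (inferInstance : MeasurableSpace X) :=
  fun A hA => hA.1

variable {μ : Measure X} [IsProbabilityMeasure μ] {E : 𝔤 → X → X}

theorem pre_ae {S : X → X} (hS : MeasurePreserving S μ μ) {A B : Set X} (h : A =ᵐ[μ] B) :
    S ⁻¹' A =ᵐ[μ] S ⁻¹' B := hS.quasiMeasurePreserving.preimage_ae_eq h

theorem ind_ae {S S' : X → X} {A : Set X} (h : S ⁻¹' A =ᵐ[μ] S' ⁻¹' A) :
    (fun p => ind A (S p)) =ᵐ[μ] fun p => ind A (S' p) := by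
  filter_upwards [eventuallyEq_set.1 h] with p hp
  unfold ind
  by_cases h1 : S p ∈ A
  · have h2 : S' p ∈ A := hp.1 h1
    rw [Set.indicator_of_mem h1, Set.indicator_of_mem h2]
  · have h2 : S' p ∉ A := fun h3 => h1 (hp.2 h3)
    rw [Set.indicator_of_notMem h1, Set.indicator_of_notMem h2]

theorem ae_of_int {S S' : X → X} (hS : Measurable S) (hS' : Measurable S') {A : Set X}
    (hA : MeasurableSet A) (h : ∫ p, ‖ind A (S p) - ind A (S' p)‖ ∂μ = 0) :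
    S ⁻¹' A =ᵐ[μ] S' ⁻¹' A := by
  have hb : Bd (ind A) := ind_bd hA
  have h1 := (integral_eq_zero_iff_of_nonneg (fun p => norm_nonneg _)
    ((hb.comp hS).int.sub (hb.comp hS').int).norm).1 h
  rw [eventuallyEq_set]
  filter_upwards [h1] with p hp
  have h2 : ind A (S p) = ind A (S' p) := by
    have : ‖ind A (S p) - ind A (S' p)‖ = 0 := hp
    exact sub_eq_zero.1 (norm_eq_zero.1 this)
  unfold ind at h2
  simp only [Set.mem_preimage]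
  by_cases h3 : S p ∈ A <;> by_cases h4 : S' p ∈ A
  · exact ⟨fun _ => h4, fun _ => h3⟩
  · rw [Set.indicator_of_mem h3, Set.indicator_of_notMem h4] at h2
    exact absurd h2 one_ne_zero
  · rw [Set.indicator_of_notMem h3, Set.indicator_of_mem h4] at h2
    exact absurd h2.symm one_ne_zero
  · exact ⟨fun h => absurd h h3, fun h => absurd h h4⟩

theorem int_congr2 {S S' R R' : X → X} {A : Set X} (h : S ⁻¹' A =ᵐ[μ] R ⁻¹' A)
    (h' : S' ⁻¹' A =ᵐ[μ] R' ⁻¹' A) :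
    ∫ p, ‖ind A (S p) - ind A (S' p)‖ ∂μ = ∫ p, ‖ind A (R p) - ind A (R' p)‖ ∂μ := by
  apply integral_congr_ae
  filter_upwards [ind_ae h, ind_ae h'] with p h1 h2
  rw [h1, h2]

theorem ad_pow_mem (K : LieIdeal ℝ 𝔤) (Z Y : 𝔤) (hY : Y ∈ K) (l : ℕ) :
    ((LieAlgebra.ad ℝ 𝔤 Z) ^ l) Y ∈ K := by
  induction l with
  | zero => simpa using hY
  | succ l ih =>
    rw [pow_succ', Module.End.mul_apply, LieAlgebra.ad_apply]
    exact K.lie_mem ih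

theorem conj_mem (hE : LieAct μ E) (K : LieIdeal ℝ 𝔤) (Z : 𝔤) {A : Set X}
    (hA : MeasurableSet[mK μ E (K : Set 𝔤)] A) : MeasurableSet[mK μ E (K : Set 𝔤)] (E Z ⁻¹' A) := by
  refine ⟨(hE.mp Z).measurable hA.1, fun Y hY => ?_⟩
  obtain ⟨Z', hZ'⟩ := exists_exp (LieAlgebra.ad ℝ 𝔤 Z) Y
  have hmem : Z' ∈ K.toSubmodule := hasSum_mem K.toSubmodule _ (fun l =>
    K.toSubmodule.smul_mem _ (ad_pow_mem K Z Y hY l)) Z' hZ'
  have h1 : E Y ⁻¹' (E Z ⁻¹' A) =ᵐ[μ] E Z ⁻¹' (E Z' ⁻¹' A) := hE.conj Z Y Z' hZ' A hA.1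
  exact h1.trans (pre_ae (hE.mp Z) (hA.2 Z' hmem))

theorem conj_meas (hE : LieAct μ E) (K : LieIdeal ℝ 𝔤) (Z : 𝔤) :
    Measurable[mK μ E (K : Set 𝔤), mK μ E (K : Set 𝔤)] (E Z) := fun _ hA => conj_mem hE K Z hA

/-- modulo an ideal -/
theorem quot (hE : LieAct μ E) (K : LieIdeal ℝ 𝔤) (Z V : 𝔤) (hV : V ∈ K) :
    SameOn (mK μ E (K : Set 𝔤)) μ (E (Z + V)) (E Z) := by
  intro A hA
  symm
  apply ae_of_int (hE.mp _).measurable (hE.mp _).measurable hA.1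
  have h1 := hE.trotter Z V (ind A) (ind_bd hA.1)
  have key : ∀ n : ℕ, 1 ≤ n → ((E ((n : ℝ)⁻¹ • Z) ∘ E ((n : ℝ)⁻¹ • V))^[n]) ⁻¹' A =ᵐ[μ] E Z ⁻¹' A := by
    intro n hn
    have hn0 : (n : ℝ) ≠ 0 := by positivity
    have h2 : ∀ j : ℕ, ((E ((n : ℝ)⁻¹ • Z) ∘ E ((n : ℝ)⁻¹ • V))^[j]) ⁻¹' A =ᵐ[μ]
        E (((j : ℝ) * (n : ℝ)⁻¹) • Z) ⁻¹' A := by
      intro j
      induction j with
      | zero =>
        have := hE.zero A hA.1
        simp only [Function.iterate_zero, Nat.cast_zero, zero_mul, zero_smul]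
        exact this.symm
      | succ j ih =>
        have h3 : ((E ((n : ℝ)⁻¹ • Z) ∘ E ((n : ℝ)⁻¹ • V))^[j + 1]) ⁻¹' A =
            E ((n : ℝ)⁻¹ • V) ⁻¹' (E ((n : ℝ)⁻¹ • Z) ⁻¹'
              (((E ((n : ℝ)⁻¹ • Z) ∘ E ((n : ℝ)⁻¹ • V))^[j]) ⁻¹' A)) := by
          rw [Function.iterate_succ]; rfl
        have h4 : E ((n : ℝ)⁻¹ • Z) ⁻¹' (E (((j : ℝ) * (n : ℝ)⁻¹) • Z) ⁻¹' A) =ᵐ[μ]
            E ((((j + 1 : ℕ) : ℝ) * (n : ℝ)⁻¹) • Z) ⁻¹' A := by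
          have := hE.line Z ((j : ℝ) * (n : ℝ)⁻¹) ((n : ℝ)⁻¹) A hA.1
          have e : ((j : ℝ) * (n : ℝ)⁻¹ + (n : ℝ)⁻¹) = ((j + 1 : ℕ) : ℝ) * (n : ℝ)⁻¹ := by push_cast; ring
          rw [e] at this
          exact this.symm
        rw [h3]
        have h5 := pre_ae (hE.mp ((n : ℝ)⁻¹ • V)) ((pre_ae (hE.mp ((n : ℝ)⁻¹ • Z)) ih).trans h4)
        refine h5.trans ?_
        exact (conj_mem hE K _ hA).2 _ (K.toSubmodule.smul_mem _ hV)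
    have h6 := h2 n
    rw [mul_inv_cancel₀ hn0, one_smul] at h6
    exact h6
  have h2 : Tendsto (fun n : ℕ => ∫ p, ‖ind A (E Z p) - ind A (E (Z + V) p)‖ ∂μ) atTop (𝓝 0) := by
    refine h1.congr' ?_
    filter_upwards [eventually_ge_atTop 1] with n hn
    exact int_congr2 (key n hn) (EventuallyEq.refl _ _)
  exact tendsto_nhds_unique tendsto_const_nhds h2

/-- sums of stabilising elements -/
theorem stab_add (hE : LieAct μ E) {A : Set X} (hA : MeasurableSet A) (V W : 𝔤)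
    (hV : ∀ s : ℝ, E (s • V) ⁻¹' A =ᵐ[μ] A) (hW : ∀ s : ℝ, E (s • W) ⁻¹' A =ᵐ[μ] A) :
    E (V + W) ⁻¹' A =ᵐ[μ] A := by
  symm
  have h0 : (id : X → X) ⁻¹' A = A := rfl
  rw [← h0]
  apply ae_of_int measurable_id (hE.mp _).measurable hA
  have h1 := hE.trotter V W (ind A) (ind_bd hA)
  have key : ∀ n j : ℕ, ((E ((n : ℝ)⁻¹ • V) ∘ E ((n : ℝ)⁻¹ • W))^[j]) ⁻¹' A =ᵐ[μ] id ⁻¹' A := by
    intro n j
    induction j with
    | zero => exact EventuallyEq.refl _ _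
    | succ j ih =>
      have h3 : ((E ((n : ℝ)⁻¹ • V) ∘ E ((n : ℝ)⁻¹ • W))^[j + 1]) ⁻¹' A =
          E ((n : ℝ)⁻¹ • W) ⁻¹' (E ((n : ℝ)⁻¹ • V) ⁻¹'
            (((E ((n : ℝ)⁻¹ • V) ∘ E ((n : ℝ)⁻¹ • W))^[j]) ⁻¹' A)) := by
        rw [Function.iterate_succ]; rfl
      rw [h3]
      exact (pre_ae (hE.mp _) ((pre_ae (hE.mp _) ih).trans (hV _))).trans (hW _)
  have h2 : Tendsto (fun n : ℕ => ∫ p, ‖ind A (id p) - ind A (E (V + W) p)‖ ∂μ) atTop (𝓝 0) :=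
    h1.congr fun n => int_congr2 (key n n) (EventuallyEq.refl _ _)
  exact tendsto_nhds_unique tendsto_const_nhds h2

theorem flow_on (hE : LieAct μ E) (K : LieIdeal ℝ 𝔤) (W : 𝔤) :
    FlowOn (mK μ E (K : Set 𝔤)) μ (fun u => E (u • W)) := by
  refine ⟨fun u => hE.mp _, fun u => conj_meas hE K _, ?_, fun u v A hA => hE.line W u v A hA.1, ?_⟩
  · intro A hA
    have := hE.zero A hA.1
    simp only [zero_smul]
    exact this
  · intro f hf u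
    have hfB : Bd f := ⟨hf.1.mono (mK_le μ E _) le_rfl, hf.2⟩
    have h1 := hE.cont f hfB (u • W)
    have h2 : Tendsto (fun v : ℝ => v • W) (𝓝 u) (𝓝 (u • W)) :=
      (continuous_id.smul continuous_const).tendsto u
    exact h1.comp h2

end Pool.Agent.W42.RL
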