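import Mathlib
import Pool.Agent.W42.RL.Act

set_option autoImplicit false
set_option linter.unusedSectionVars false
set_option linter.unusedVariables false

/-!
The Mautner phenomenon for elements of a nilpotent ideal.
-/

namespace Pool.Agent.W42.RL

open Finset Filter Topology MeasureTheory Pool.Agent.W42.RN

variable {X : Type} [MeasurableSpace X]
variable {𝔤 : Type} [LieRing 𝔤] [LieAlgebra ℝ 𝔤] [FiniteDimensional ℝ 𝔤] [TopologicalSpace 𝔤]
  [IsTopologicalAddGroup 𝔤] [ContinuousSMul ℝ 𝔤] [T2Space 𝔤]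
variable {μ : Measure X} [IsProbabilityMeasure μ] {E : 𝔤 → X → X}

/-- the descending central series of an ideal -/
def lc (I : LieIdeal ℝ 𝔤) : ℕ → LieIdeal ℝ 𝔤
  | 0 => I
  | i + 1 => ⁅I, lc I i⁆

theorem ad_pow_lc (I : LieIdeal ℝ 𝔤) {V : 𝔤} (hV : V ∈ I) (Z : 𝔤) (l : ℕ) :
    ((LieAlgebra.ad ℝ 𝔤 V) ^ (l + 1)) Z ∈ lc I l := by
  induction l with
  | zero =>
    simp only [zero_add, pow_one, LieAlgebra.ad_apply]
    have : ⁅Z, V⁆ ∈ I := I.lie_mem hV
    rw [← lie_skew]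
    exact I.toSubmodule.neg_mem this
  | succ l ih =>
    rw [pow_succ', Module.End.mul_apply, LieAlgebra.ad_apply]
    exact LieSubmodule.lie_mem_lie hV ih

theorem ad_pow_zero (I : LieIdeal ℝ 𝔤) {c : ℕ} (hc : lc I c = ⊥) {V : 𝔤} (hV : V ∈ I) :
    (LieAlgebra.ad ℝ 𝔤 V) ^ (c + 1) = 0 := by
  ext Z
  have := ad_pow_lc I hV Z c
  rw [hc] at this
  simpa using this

theorem cont_ind (hE : LieAct μ E) {A : Set X} (hA : MeasurableSet A) {Y : ℕ → 𝔤} {Y₀ : 𝔤}
    (h : Tendsto Y atTop (𝓝 Y₀)) :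
    Tendsto (fun n => ∫ p, ‖ind A (E (Y n) p) - ind A (E Y₀ p)‖ ∂μ) atTop (𝓝 0) :=
  (hE.cont (ind A) (ind_bd hA) Y₀).comp h

/-- the basic step -/
theorem mautner_step (hE : LieAct μ E) (J : LieIdeal ℝ 𝔤) {A : Set X}
    (hA : MeasurableSet[mK μ E (J : Set 𝔤)] A) {V : 𝔤} (hV : ∀ s : ℝ, E (s • V) ⁻¹' A =ᵐ[μ] A)
    {c : ℕ} (hc : (LieAlgebra.ad ℝ 𝔤 V) ^ c = 0) (Z : 𝔤) {e : ℕ} (he : 1 ≤ e)
    (hJ : ∀ l, e < l → ((LieAlgebra.ad ℝ 𝔤 V) ^ l) Z ∈ J) (s : ℝ) :
    E (s • ((LieAlgebra.ad ℝ 𝔤 V) ^ e) Z) ⁻¹' A =ᵐ[μ] A := by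
  set B := LieAlgebra.ad ℝ 𝔤 V with hB
  set V₁ := (B ^ e) Z with hV₁
  have hAm : MeasurableSet A := hA.1
  have hb : Bd (ind A) := ind_bd hAm
  -- a large exponent
  obtain ⟨c', hc', hec⟩ : ∃ c', B ^ c' = 0 ∧ e + 1 ≤ c' := ⟨max c (e + 1), by
    rw [← Nat.add_sub_cancel' (le_max_left c (e + 1)), pow_add, hc, zero_mul], le_max_right _ _⟩
  set ε : ℕ → ℝ := fun n => s * e.factorial / (n : ℝ) ^ e with hε
  set term : ℕ → ℕ → 𝔤 := fun n l => ((l.factorial : ℝ)⁻¹) •
    ((LieAlgebra.ad ℝ 𝔤 ((n : ℝ) • V)) ^ l) (ε n • Z) with hterm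
  have hterm' : ∀ n l, term n l = ((l.factorial : ℝ)⁻¹ * (n : ℝ) ^ l * ε n) • (B ^ l) Z := by
    intro n l
    simp only [hterm, map_smul, smul_pow, LinearMap.smul_apply, smul_smul]
    congr 1
    ring
  set Z' : ℕ → 𝔤 := fun n => ∑ l ∈ range c', term n l with hZ'
  have hsum : ∀ n, HasSum (fun l : ℕ => term n l) (Z' n) := by
    intro n
    apply hasSum_sum_of_ne_finset_zero
    intro l hl
    rw [mem_range, not_lt] at hl
    have hBl : B ^ l = 0 := by rw [← Nat.add_sub_cancel' hl, pow_add, hc', zero_mul]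
    rw [hterm', hBl]
    simp
  set G : ℕ → 𝔤 := fun n => ∑ l ∈ range (e + 1), term n l with hG
  have hR : ∀ n, Z' n - G n ∈ J := by
    intro n
    have h1 : Z' n - G n = ∑ l ∈ Ico (e + 1) c', term n l := by
      simp only [hZ', hG]
      rw [← sum_range_add_sum_Ico _ hec]
      abel
    rw [h1]
    refine J.toSubmodule.sum_mem fun l hl => ?_
    rw [mem_Ico] at hl
    rw [hterm']
    exact J.toSubmodule.smul_mem _ (hJ l (by omega))
  -- `G n → s • V₁`
  have hGlim : Tendsto G atTop (𝓝 (s • V₁)) := by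
    have h1 : ∀ l ∈ range (e + 1), Tendsto (fun n : ℕ => term n l) atTop
        (𝓝 (if l = e then s • V₁ else 0)) := by
      intro l hl
      rw [mem_range] at hl
      by_cases hle : l = e
      · subst hle
        rw [if_pos rfl]
        refine tendsto_const_nhds.congr' ?_
        filter_upwards [eventually_ge_atTop 1] with n hn
        have hn0 : (n : ℝ) ≠ 0 := by
          have : (1 : ℝ) ≤ n := by exact_mod_cast hn
          positivity
        rw [hterm', hV₁]
        congr 1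
        simp only [hε]
        have hf : (l.factorial : ℝ) ≠ 0 := by positivity
        field_simp
      · rw [if_neg hle]
        have hlt : l < e := by omega
        have h2 : Tendsto (fun n : ℕ => (l.factorial : ℝ)⁻¹ * (n : ℝ) ^ l * ε n) atTop (𝓝 0) := by
          have h3 : Tendsto (fun n : ℕ => (s * e.factorial * (l.factorial : ℝ)⁻¹) * ((n : ℝ) ^ (e - l))⁻¹)
              atTop (𝓝 ((s * e.factorial * (l.factorial : ℝ)⁻¹) * 0)) := by
            apply Tendsto.const_mul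
            apply tendsto_inv_atTop_zero.comp
            exact (tendsto_pow_atTop (by omega : e - l ≠ 0)).comp tendsto_natCast_atTop_atTop
          rw [mul_zero] at h3
          refine h3.congr' ?_
          filter_upwards [eventually_ge_atTop 1] with n hn
          have hn0 : (n : ℝ) ≠ 0 := by
            have : (1 : ℝ) ≤ n := by exact_mod_cast hn
            positivity
          simp only [hε]
          have h4 : (n : ℝ) ^ e = (n : ℝ) ^ l * (n : ℝ) ^ (e - l) := by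
            rw [← pow_add]; congr 1; omega
          rw [h4]
          field_simp
        have h5 := h2.smul_const ((B ^ l) Z)
        rw [zero_smul] at h5
        exact h5.congr fun n => (hterm' n l).symm
    have h2 := tendsto_finsetSum (range (e + 1)) h1
    have h3 : ∑ l ∈ range (e + 1), (if l = e then s • V₁ else 0) = s • V₁ := by
      rw [sum_ite_eq', if_pos (by simp)]
    rw [h3] at h2
    exact h2
  -- `ε n → 0`
  have hεlim : Tendsto (fun n => ε n • Z) atTop (𝓝 0) := by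
    have h1 : Tendsto ε atTop (𝓝 0) := by
      apply Tendsto.const_div_atTop
      exact (tendsto_pow_atTop (by omega : e ≠ 0)).comp tendsto_natCast_atTop_atTop
    have := h1.smul_const Z
    rwa [zero_smul] at this
  have hlim1 := cont_ind hE hAm hGlim
  have hlim2 : Tendsto (fun n => ∫ p, ‖ind A (E (ε n • Z) p) - ind A p‖ ∂μ) atTop (𝓝 0) := by
    refine (cont_ind hE hAm hεlim).congr fun n => ?_
    exact int_congr2 (S' := E 0) (R' := id) (EventuallyEq.refl _ _) (hE.zero A hAm)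
  have hchain : ∀ n, ∫ p, ‖ind A (E (G n) p) - ind A p‖ ∂μ = ∫ p, ‖ind A (E (ε n • Z) p) - ind A p‖ ∂μ := by
    intro n
    have e1 : ∫ p, ‖ind A (E (G n) p) - ind A p‖ ∂μ = ∫ p, ‖ind A (E (Z' n) p) - ind A p‖ ∂μ := by
      have h1 := quot hE J (G n) (Z' n - G n) (hR n) A hA
      rw [add_sub_cancel] at h1
      exact int_congr2 (S' := id) (R' := id) h1.symm (EventuallyEq.refl _ _)
    have e2 : ∫ p, ‖ind A (E (Z' n) p) - ind A p‖ ∂μ =
        ∫ p, ‖ind A (E (Z' n) (E ((n : ℝ) • V) p)) - ind A (E ((n : ℝ) • V) p)‖ ∂μ :=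
      (comp_int (hE.mp ((n : ℝ) • V)) (g := fun p => ‖ind A (E (Z' n) p) - ind A p‖)
        ((hb.comp (hE.mp _).measurable).meas.sub hb.meas).norm).symm
    have h3 : (E (Z' n) ∘ E ((n : ℝ) • V)) ⁻¹' A =ᵐ[μ] E (ε n • Z) ⁻¹' A := by
      have h4 := hE.conj ((n : ℝ) • V) (ε n • Z) (Z' n) (hsum n) A hAm
      have h5 : (E ((n : ℝ) • V) ∘ E (ε n • Z)) ⁻¹' A =ᵐ[μ] E (ε n • Z) ⁻¹' A :=
        pre_ae (hE.mp (ε n • Z)) (hV n)
      exact h4.symm.trans h5
    have e3 : ∫ p, ‖ind A (E (Z' n) (E ((n : ℝ) • V) p)) - ind A (E ((n : ℝ) • V) p)‖ ∂μ =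
        ∫ p, ‖ind A (E (ε n • Z) p) - ind A p‖ ∂μ :=
      int_congr2 (S := E (Z' n) ∘ E ((n : ℝ) • V)) (S' := E ((n : ℝ) • V)) (R' := id) h3 (hV n)
    rw [e1, e2, e3]
  have hlim3 : Tendsto (fun n => ∫ p, ‖ind A (E (G n) p) - ind A p‖ ∂μ) atTop (𝓝 0) := by
    simp_rw [hchain]; exact hlim2
  symm
  have h0 : (id : X → X) ⁻¹' A = A := rfl
  rw [← h0]
  apply ae_of_int measurable_id (hE.mp _).measurable hAm
  have hle : ∀ n, ∫ p, ‖ind A (id p) - ind A (E (s • V₁) p)‖ ∂μ ≤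
      ∫ p, ‖ind A (E (G n) p) - ind A p‖ ∂μ + ∫ p, ‖ind A (E (G n) p) - ind A (E (s • V₁) p)‖ ∂μ := by
    intro n
    have b1 : Bd fun p => ind A (E (G n) p) := hb.comp (hE.mp _).measurable
    have b2 : Bd fun p => ind A (E (s • V₁) p) := hb.comp (hE.mp _).measurable
    have hi1 : Integrable (fun p => ‖ind A (E (G n) p) - ind A p‖) μ := (b1.int.sub hb.int).norm
    have hi2 : Integrable (fun p => ‖ind A (E (G n) p) - ind A (E (s • V₁) p)‖) μ := (b1.int.sub b2.int).norm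
    rw [← integral_add hi1 hi2]
    apply integral_mono (hb.int.sub b2.int).norm (hi1.add hi2)
    intro p
    show ‖ind A p - ind A (E (s • V₁) p)‖ ≤ ‖ind A (E (G n) p) - ind A p‖ + ‖ind A (E (G n) p) - ind A (E (s • V₁) p)‖
    rw [norm_sub_rev (ind A (E (G n) p)) (ind A p)]
    exact norm_sub_le_norm_sub_add_norm_sub _ _ _
  have h1 : ∫ p, ‖ind A (id p) - ind A (E (s • V₁) p)‖ ∂μ ≤ 0 := by
    have := hlim3.add hlim1
    rw [add_zero] at this
    exact ge_of_tendsto' this hle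
  exact le_antisymm h1 (integral_nonneg fun p => norm_nonneg _)

/-- the Mautner phenomenon for an element of a nilpotent ideal, modulo an ideal -/
theorem mautner (hE : LieAct μ E) (I : LieIdeal ℝ 𝔤) {c : ℕ} (hc : lc I c = ⊥) (K : LieIdeal ℝ 𝔤)
    {W : 𝔤} (hW : W ∈ I) {A : Set X} (hA : MeasurableSet[mK μ E (K : Set 𝔤)] A)
    (hAW : ∀ u : ℝ, E (u • W) ⁻¹' A =ᵐ[μ] A) :
    MeasurableSet[mK μ E ((K ⊔ LieSubmodule.lieSpan ℝ 𝔤 {W} : LieIdeal ℝ 𝔤) : Set 𝔤)] A := by
  have hwf := (LieSubmodule.wellFoundedGT_of_noetherian ℝ 𝔤 𝔤).wf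
  obtain ⟨J, ⟨hKJ, hJA⟩, hmax⟩ := hwf.has_min
    {J : LieIdeal ℝ 𝔤 | K ≤ J ∧ ∀ V ∈ J, E V ⁻¹' A =ᵐ[μ] A} ⟨K, le_rfl, fun V hV => hA.2 V hV⟩
  have hAJ : MeasurableSet[mK μ E (J : Set 𝔤)] A := ⟨hA.1, fun V hV => hJA V hV⟩
  set St : 𝔤 → Prop := fun V => ∀ s : ℝ, E (s • V) ⁻¹' A =ᵐ[μ] A with hSt
  have hskew : ∀ (L : LieIdeal ℝ 𝔤) (x y : 𝔤), ⁅x, y⁆ ∈ L → ⁅y, x⁆ ∈ L := by
    intro L x y h
    rw [← lie_skew]
    exact L.toSubmodule.neg_mem h
  -- the ideal of elements centralising `I` modulo `J`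
  let C : LieIdeal ℝ 𝔤 :=
    { carrier := {V | V ∈ I ∧ St V ∧ ∀ N ∈ I, ⁅N, V⁆ ∈ J}
      zero_mem' := by
        refine ⟨I.toSubmodule.zero_mem, fun s => ?_, fun N _ => ?_⟩
        · rw [smul_zero]; exact hE.zero A hA.1
        · rw [lie_zero]; exact J.toSubmodule.zero_mem
      add_mem' := by
        rintro a b ⟨h1, h2, h3⟩ ⟨g1, g2, g3⟩
        refine ⟨I.toSubmodule.add_mem h1 g1, fun s => ?_, fun N hN => ?_⟩
        · rw [smul_add]
          exact stab_add hE hA.1 _ _ (fun t => by rw [smul_smul]; exact h2 _)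
            (fun t => by rw [smul_smul]; exact g2 _)
        · rw [lie_add]; exact J.toSubmodule.add_mem (h3 N hN) (g3 N hN)
      smul_mem' := by
        rintro t a ⟨h1, h2, h3⟩
        refine ⟨I.toSubmodule.smul_mem t h1, fun s => ?_, fun N hN => ?_⟩
        · rw [smul_smul]; exact h2 _
        · rw [lie_smul]; exact J.toSubmodule.smul_mem t (h3 N hN)
      lie_mem := by
        rintro Z V ⟨h1, h2, h3⟩
        have hZV : ⁅Z, V⁆ ∈ I := I.lie_mem h1
        have hVZ : ⁅V, Z⁆ ∈ I := hskew I _ _ hZV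
        have hst : St ⁅V, Z⁆ := by
          intro s
          have hpow : ∀ l, 1 < l → ((LieAlgebra.ad ℝ 𝔤 V) ^ l) Z ∈ J := by
            intro l hl
            obtain ⟨l', rfl⟩ : ∃ l', l = l' + 2 := ⟨l - 2, by omega⟩
            rw [pow_add, Module.End.mul_apply]
            apply ad_pow_mem
            rw [pow_two, Module.End.mul_apply, LieAlgebra.ad_apply, LieAlgebra.ad_apply]
            exact hskew J _ _ (h3 _ hVZ)
          have := mautner_step hE J hAJ h2 (ad_pow_zero I hc h1) Z (le_refl 1) hpow s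
          rw [pow_one, LieAlgebra.ad_apply] at this
          exact this
        refine ⟨hZV, fun s => ?_, fun N hN => ?_⟩
        · have := hst (-s)
          rw [neg_smul, ← smul_neg, lie_skew] at this
          exact this
        · rw [leibniz_lie]
          have : ⁅N, Z⁆ ∈ I := hskew I _ _ (I.lie_mem hN)
          exact J.toSubmodule.add_mem (h3 _ this) (J.lie_mem (h3 N hN)) }
  have hCJ : C ≤ J := by
    have h1 : J ⊔ C ∈ {J : LieIdeal ℝ 𝔤 | K ≤ J ∧ ∀ V ∈ J, E V ⁻¹' A =ᵐ[μ] A} := by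
      refine ⟨hKJ.trans le_sup_left, fun V hV => ?_⟩
      obtain ⟨a, ha, b, hb, rfl⟩ := (LieSubmodule.mem_sup J C V).1 hV
      have hb' : b ∈ C := hb
      obtain ⟨_, hb2, _⟩ : b ∈ I ∧ St b ∧ ∀ N ∈ I, ⁅N, b⁆ ∈ J := hb'
      have h2 := quot hE J b a ha A hAJ
      rw [add_comm] at h2
      have h3 := hb2 1
      rw [one_smul] at h3
      exact h2.trans h3
    have h2 := hmax _ h1
    have h3 : J ⊔ C = J := by
      by_contra hne
      exact h2 (lt_of_le_of_ne le_sup_left (Ne.symm hne))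
    rw [← h3]
    exact le_sup_right
  have hWJ : W ∈ J := by
    by_contra hWJ
    have hP : ∀ i, ∃ V ∈ lc I i, St V ∧ V ∉ J := by
      intro i
      induction i with
      | zero => exact ⟨W, hW, hAW, hWJ⟩
      | succ i ih =>
        obtain ⟨V, hV1, hV2, hV3⟩ := ih
        have hVI : V ∈ I := by
          have : ∀ i, lc I i ≤ I := by
            intro i
            induction i with
            | zero => exact le_rfl
            | succ i ih => exact (LieSubmodule.lie_le_right _ _).trans ih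
          exact this i hV1
        by_cases hall : ∀ N ∈ I, ⁅N, V⁆ ∈ J
        · exact absurd (hCJ (show V ∈ C from ⟨hVI, hV2, hall⟩)) hV3
        · push Not at hall
          obtain ⟨N, hN, hNV⟩ := hall
          classical
          have hex : ∃ l, ((LieAlgebra.ad ℝ 𝔤 V) ^ l) N ∈ J := ⟨c + 1, by
            rw [ad_pow_zero I hc hVI]; exact J.toSubmodule.zero_mem⟩
          set l₀ := Nat.find hex with hl₀
          have hl₀mem : ((LieAlgebra.ad ℝ 𝔤 V) ^ l₀) N ∈ J := Nat.find_spec hex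
          have h0 : l₀ ≠ 0 := by
            intro h
            rw [h, pow_zero, Module.End.one_apply] at hl₀mem
            exact hNV (hskew J _ _ (J.lie_mem hl₀mem))
          have h1 : l₀ ≠ 1 := by
            intro h
            rw [h, pow_one, LieAlgebra.ad_apply] at hl₀mem
            exact hNV (hskew J _ _ hl₀mem)
          obtain ⟨e, he⟩ : ∃ e, l₀ = e + 2 := ⟨l₀ - 2, by omega⟩
          have hnot : ((LieAlgebra.ad ℝ 𝔤 V) ^ (e + 1)) N ∉ J := Nat.find_min hex (by omega)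
          have hpow : ∀ l, e + 1 < l → ((LieAlgebra.ad ℝ 𝔤 V) ^ l) N ∈ J := by
            intro l hl
            obtain ⟨l', rfl⟩ : ∃ l', l = l' + (e + 2) := ⟨l - (e + 2), by omega⟩
            rw [pow_add, Module.End.mul_apply]
            apply ad_pow_mem
            rw [← he]; exact hl₀mem
          refine ⟨((LieAlgebra.ad ℝ 𝔤 V) ^ (e + 1)) N, ?_, fun s => ?_, hnot⟩
          · rw [pow_succ', Module.End.mul_apply, LieAlgebra.ad_apply]
            apply hskew
            have : ((LieAlgebra.ad ℝ 𝔤 V) ^ e) N ∈ I := ad_pow_mem I V N hN e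
            exact LieSubmodule.lie_mem_lie this hV1
          · exact mautner_step hE J hAJ hV2 (ad_pow_zero I hc hVI) N (by omega) hpow s
    obtain ⟨V, hV1, _, hV3⟩ := hP c
    rw [hc] at hV1
    have : V = 0 := by simpa using hV1
    exact hV3 (this ▸ J.toSubmodule.zero_mem)
  refine ⟨hA.1, fun V hV => hJA V ?_⟩
  have h1 : K ⊔ LieSubmodule.lieSpan ℝ 𝔤 {W} ≤ J :=
    sup_le hKJ (LieSubmodule.lieSpan_le.2 (by simpa using hWJ))
  exact h1 hV

end Pool.Agent.W42.RL
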