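import Mathlib
import Pool.Agent.W42.RL.Mau

set_option autoImplicit false
set_option linter.unusedSectionVars false
set_option linter.unusedVariables false

/-!
Multiple mixing of unipotent elements.
-/

namespace Pool.Agent.W42.RL

open Finset Filter Topology MeasureTheory Pool.Agent.W42.RN

variable {X : Type} [MeasurableSpace X]
variable {𝔤 : Type} [LieRing 𝔤] [LieAlgebra ℝ 𝔤] [FiniteDimensional ℝ 𝔤] [TopologicalSpace 𝔤]
  [IsTopologicalAddGroup 𝔤] [ContinuousSMul ℝ 𝔤] [T2Space 𝔤]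
variable {μ : Measure X} [IsProbabilityMeasure μ] {E : 𝔤 → X → X}

theorem sameOn_fn {m : MeasurableSpace X} [mX : MeasurableSpace X] {μ : Measure X} {S S' : X → X}
    (h : SameOn m μ S S') {g : X → ℂ} (hg : Measurable[m] g) :
    (fun p => g (S p)) =ᵐ[μ] fun p => g (S' p) := by
  obtain ⟨B, hBc, _, hB⟩ := TopologicalSpace.exists_countable_basis ℂ
  have h1 : ∀ V ∈ B, ∀ᵐ p ∂μ, (S p ∈ g ⁻¹' V ↔ S' p ∈ g ⁻¹' V) := fun V hV => by
    have h2 := h (g ⁻¹' V) (hg (hB.isOpen hV).measurableSet)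
    exact eventuallyEq_set.1 h2
  have h3 : ∀ᵐ p ∂μ, ∀ V ∈ B, (S p ∈ g ⁻¹' V ↔ S' p ∈ g ⁻¹' V) := (ae_ball_iff hBc).2 h1
  filter_upwards [h3] with p hp
  by_contra hne
  obtain ⟨V, W, hV, hW, hSV, hSW, hVW⟩ := t2_separation hne
  obtain ⟨V', hV', h4, h5⟩ := hB.exists_subset_of_mem_open hSV hV
  have h6 : g (S' p) ∈ V' := (hp V' hV').1 h4
  exact Set.disjoint_left.1 hVW (h5 h6) hSW

theorem iter_conj {S : X → X} (hS : MeasurePreserving S μ μ) (hE : LieAct μ E)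
    {B : Module.End ℝ 𝔤} {c : ℕ} (hc1 : 1 ≤ c) (hB : B ^ c = 0) (a : ℝ)
    (h : ∀ Y, Same μ (S ∘ E Y) (E (tex c B a Y) ∘ S)) (n : ℕ) (Y : 𝔤) :
    Same μ (S^[n] ∘ E Y) (E (tex c B (n * a) Y) ∘ S^[n]) := by
  induction n with
  | zero =>
    have : tex c B ((0 : ℕ) * a) Y = Y := by
      rw [Nat.cast_zero, zero_mul, tex_zero c hc1]; rfl
    rw [this]
    intro A hA
    exact EventuallyEq.refl _ _
  | succ n ih =>
    have g1 : Same μ (S^[n + 1] ∘ E Y) (S ∘ (E (tex c B (n * a) Y) ∘ S^[n])) := by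
      rw [Function.iterate_succ']
      exact ih.left hS.measurable
    have g2 : Same μ ((S ∘ E (tex c B (n * a) Y)) ∘ S^[n])
        ((E (tex c B a (tex c B (n * a) Y)) ∘ S) ∘ S^[n]) := (h _).right (hS.iterate n)
    have e : tex c B a (tex c B (n * a) Y) = tex c B ((n + 1 : ℕ) * a) Y := by
      have h1 : ((n + 1 : ℕ) : ℝ) * a = a + n * a := by push_cast; ring
      rw [h1, tex_add c B hB]; rfl
    rw [e] at g2
    have g3 := g1.trans g2
    rw [Function.iterate_succ'] at g3 ⊢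
    exact g3

theorem symm_conj {T : X ≃ᵐ X} (hT : MeasurePreserving T μ μ) {B : Module.End ℝ 𝔤} {c : ℕ}
    (hc1 : 1 ≤ c) (hB : B ^ c = 0) (h : ∀ Y, Same μ (T ∘ E Y) (E (tex c B 1 Y) ∘ T)) (Y : 𝔤) :
    Same μ (T.symm ∘ E Y) (E (tex c B (-1) Y) ∘ T.symm) := by
  have hT' : MeasurePreserving T.symm μ μ := hT.symm T
  have h1 := h (tex c B (-1) Y)
  have e : tex c B 1 (tex c B (-1) Y) = Y := by
    have : tex c B 1 * tex c B (-1) = 1 := by
      rw [← tex_add c B hB, add_neg_cancel, tex_zero c hc1]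
    calc tex c B 1 (tex c B (-1) Y) = (tex c B 1 * tex c B (-1)) Y := rfl
      _ = Y := by rw [this]; rfl
  rw [e] at h1
  have g1 := (h1.symm.left (R := T.symm) T.symm.measurable).right hT'
  have e1 : (T.symm ∘ (E Y ∘ T)) ∘ T.symm = T.symm ∘ E Y := by
    funext p
    simp only [Function.comp_apply, T.apply_symm_apply]
  have e2 : (T.symm ∘ (T ∘ E (tex c B (-1) Y))) ∘ T.symm = E (tex c B (-1) Y) ∘ T.symm := by
    funext p
    simp only [Function.comp_apply, T.symm_apply_apply]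
  rw [e1, e2] at g1
  exact g1

theorem pw_conj {T : X ≃ᵐ X} (hT : MeasurePreserving T μ μ) (hE : LieAct μ E)
    {B : Module.End ℝ 𝔤} {c : ℕ} (hc1 : 1 ≤ c) (hB : B ^ c = 0)
    (h : ∀ Y, Same μ (T ∘ E Y) (E (tex c B 1 Y) ∘ T)) (n : ℤ) (Y : 𝔤) :
    Same μ (pw T n ∘ E Y) (E (tex c B n Y) ∘ pw T n) := by
  have hT' : MeasurePreserving T.symm μ μ := hT.symm T
  obtain ⟨k, rfl | rfl⟩ := n.eq_nat_or_neg
  · rw [pw_nat]
    have := iter_conj hT hE hc1 hB 1 h k Y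
    simpa using this
  · rw [pw_neg]
    have := iter_conj hT' hE hc1 hB (-1) (symm_conj hT hc1 hB h) k Y
    simpa using this

theorem pow_mem_of_stable {B : Module.End ℝ 𝔤} (K : LieIdeal ℝ 𝔤) (hK : ∀ Y ∈ K, B Y ∈ K) {Y : 𝔤}
    (hY : Y ∈ K) (l : ℕ) : (B ^ l) Y ∈ K := by
  induction l with
  | zero => simpa using hY
  | succ l ih => rw [pow_succ', Module.End.mul_apply]; exact hK _ ih

theorem tex_mem {B : Module.End ℝ 𝔤} (K : LieIdeal ℝ 𝔤) (hK : ∀ Y ∈ K, B Y ∈ K) {Y : 𝔤}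
    (hY : Y ∈ K) (c : ℕ) (a : ℝ) : tex c B a Y ∈ K := by
  rw [tex_apply]
  exact K.toSubmodule.sum_mem fun l _ => K.toSubmodule.smul_mem _ (pow_mem_of_stable K hK hY l)

theorem T_meas {S : X → X} (hS : MeasurePreserving S μ μ) {B : Module.End ℝ 𝔤} {c : ℕ} {a : ℝ}
    (h : ∀ Y, Same μ (S ∘ E Y) (E (tex c B a Y) ∘ S)) (K : LieIdeal ℝ 𝔤) (hK : ∀ Y ∈ K, B Y ∈ K) :
    Measurable[mK μ E (K : Set 𝔤), mK μ E (K : Set 𝔤)] S := by
  intro A hA
  refine ⟨hS.measurable hA.1, fun Y hY => ?_⟩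
  have h1 : E Y ⁻¹' (S ⁻¹' A) =ᵐ[μ] S ⁻¹' (E (tex c B a Y) ⁻¹' A) := h Y A hA.1
  exact h1.trans (pre_ae hS (hA.2 _ (tex_mem K hK hY c a)))

/-- the rate -/
noncomputable def rt (d : ℕ) (n : ℤ) : ℝ := (n : ℝ) ^ d / d.factorial

theorem rate_rt {d : ℕ} (hd : 1 ≤ d) : Rate (rt d) := by
  have hf : (0 : ℝ) < d.factorial := by positivity
  have habs : ∀ n : ℤ, |rt d n| = |(n : ℝ)| ^ d / d.factorial := by
    intro n
    unfold rt
    rw [abs_div, abs_pow, abs_of_pos hf]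
  refine ⟨?_, ?_, ⟨2 ^ d, ?_⟩⟩
  · unfold rt
    rw [Int.cast_zero, zero_pow (by omega), zero_div]
  · intro b
    refine ⟨⌈|b| * d.factorial⌉₊ + 1, fun n hn => ?_⟩
    rw [habs, le_div_iff₀ hf]
    have h1 : ((⌈|b| * d.factorial⌉₊ + 1 : ℕ) : ℝ) ≤ |(n : ℝ)| := by
      have : (((⌈|b| * d.factorial⌉₊ + 1 : ℕ) : ℤ) : ℝ) ≤ ((|n| : ℤ) : ℝ) := by exact_mod_cast hn
      rw [Int.cast_abs] at this
      exact_mod_cast this
    have h2 := Nat.le_ceil (|b| * d.factorial)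
    have h3 : (1 : ℝ) ≤ |(n : ℝ)| := by
      have : (0 : ℝ) ≤ ((⌈|b| * d.factorial⌉₊ : ℕ) : ℝ) := by positivity
      push_cast at h1; linarith
    have h4 : |(n : ℝ)| ≤ |(n : ℝ)| ^ d := le_self_pow₀ h3 (by omega)
    have h5 := le_abs_self b
    push_cast at h1
    nlinarith
  · intro n n' hn
    rw [habs, habs]
    have h1 : |(n : ℝ)| ≤ 2 * |(n' : ℝ)| := by
      have : ((|n| : ℤ) : ℝ) ≤ ((2 * |n'| : ℤ) : ℝ) := by exact_mod_cast hn
      push_cast at this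
      exact this
    calc |(n : ℝ)| ^ d / d.factorial ≤ (2 * |(n' : ℝ)|) ^ d / d.factorial :=
          div_le_div_of_nonneg_right (pow_le_pow_left₀ (abs_nonneg _) h1 d) hf.le
      _ = _ := by rw [mul_pow]; ring

/-- the shearing estimate -/
theorem shears_nil {T : X ≃ᵐ X} (hT : MeasurePreserving T μ μ) (hE : LieAct μ E)
    {B : Module.End ℝ 𝔤} {c : ℕ} (hc1 : 1 ≤ c) (hB : B ^ c = 0)
    (h : ∀ Y, Same μ (T ∘ E Y) (E (tex c B 1 Y) ∘ T)) (K : LieIdeal ℝ 𝔤)
    (Y : 𝔤) {d : ℕ} (hd : 1 ≤ d) (hdc : d + 1 ≤ c) (hl : ∀ l, d < l → (B ^ l) Y ∈ K) :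
    ShearsOn (mK μ E (K : Set 𝔤)) μ T.toEquiv (fun ε => E (ε • Y)) (fun u => E (u • (B ^ d) Y)) (rt d) := by
  intro f hf U δ hU hδ
  have hfB : Bd f := ⟨hf.1.mono (mK_le μ E _) le_rfl, hf.2⟩
  set W := (B ^ d) Y with hW
  have hfac : (0 : ℝ) < d.factorial := by positivity
  set Φ : (Fin d → ℝ) → ℝ → 𝔤 := fun t s => ∑ l : Fin d, t l • (B ^ (l : ℕ)) Y + s • W with hΦ
  have hΦc : Continuous fun q : (Fin d → ℝ) × ℝ => Φ q.1 q.2 := by
    simp only [hΦ]
    refine Continuous.add ?_ (continuous_snd.smul continuous_const)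
    refine continuous_finsetSum _ fun l _ => ?_
    exact ((continuous_apply l).comp continuous_fst).smul continuous_const
  have hev : ∀ᶠ t in 𝓝 (0 : Fin d → ℝ), ∀ s ∈ Set.Icc (-U) U,
      ∫ p, ‖f (E (Φ t s) p) - f (E (s • W) p)‖ ∂μ < δ := by
    apply isCompact_Icc.eventually_forall_of_forall_eventually
    intro s₀ _
    have h0 : Φ 0 s₀ = s₀ • W := by simp [hΦ]
    have h1 : Tendsto (fun q : (Fin d → ℝ) × ℝ => Φ q.1 q.2) (𝓝 (0, s₀)) (𝓝 (s₀ • W)) := by
      have := hΦc.tendsto (0, s₀)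
      simp only [h0] at this
      exact this
    have h2 : Tendsto (fun q : (Fin d → ℝ) × ℝ => q.2 • W) (𝓝 (0, s₀)) (𝓝 (s₀ • W)) :=
      (continuous_snd.smul continuous_const).tendsto _
    have h3 := ((hE.cont f hfB (s₀ • W)).comp h1).add ((hE.cont f hfB (s₀ • W)).comp h2)
    rw [add_zero] at h3
    filter_upwards [h3.eventually_lt_const hδ] with q hq
    refine lt_of_le_of_lt ?_ hq
    have b1 : Bd fun p => f (E (Φ q.1 q.2) p) := hfB.comp (hE.mp _).measurable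
    have b2 : Bd fun p => f (E (q.2 • W) p) := hfB.comp (hE.mp _).measurable
    have b3 : Bd fun p => f (E (s₀ • W) p) := hfB.comp (hE.mp _).measurable
    have hi1 : Integrable (fun p => ‖f (E (Φ q.1 q.2) p) - f (E (s₀ • W) p)‖) μ := (b1.int.sub b3.int).norm
    have hi2 : Integrable (fun p => ‖f (E (q.2 • W) p) - f (E (s₀ • W) p)‖) μ := (b2.int.sub b3.int).norm
    simp only [Function.comp_apply]
    rw [← integral_add hi1 hi2]
    apply integral_mono (b1.int.sub b2.int).norm (hi1.add hi2)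
    intro p
    show ‖f (E (Φ q.1 q.2) p) - f (E (q.2 • W) p)‖ ≤
      ‖f (E (Φ q.1 q.2) p) - f (E (s₀ • W) p)‖ + ‖f (E (q.2 • W) p) - f (E (s₀ • W) p)‖
    rw [norm_sub_rev (f (E (q.2 • W) p))]
    exact norm_sub_le_norm_sub_add_norm_sub _ _ _
  obtain ⟨η, hη, hball⟩ := Metric.eventually_nhds_iff.1 hev
  obtain ⟨M, hM⟩ := exists_nat_gt (U * d.factorial / η)
  have hM0 : (0 : ℝ) < M := lt_of_le_of_lt (by positivity) hM
  have hM1 : (1 : ℝ) ≤ M := by
    have : 0 < M := by exact_mod_cast hM0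
    exact_mod_cast this
  refine ⟨η / ((M : ℝ) ^ d + 1), by positivity, fun ε hε hεlt n hn => ?_⟩
  set t : Fin d → ℝ := fun l => ε * (n : ℝ) ^ (l : ℕ) / (l : ℕ).factorial with ht
  have htη : dist t 0 < η := by
    rw [dist_zero_right, pi_norm_lt_iff hη]
    intro l
    simp only [ht]
    rw [Real.norm_eq_abs, abs_div, abs_mul, abs_pow, abs_of_pos hε]
    have hfl : (1 : ℝ) ≤ |((l : ℕ).factorial : ℝ)| := by
      rw [abs_of_nonneg (by positivity)]
      exact_mod_cast Nat.one_le_iff_ne_zero.2 (Nat.factorial_ne_zero _)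
    have h1 : ε * |(n : ℝ)| ^ (l : ℕ) / |((l : ℕ).factorial : ℝ)| ≤ ε * |(n : ℝ)| ^ (l : ℕ) :=
      div_le_self (by positivity) hfl
    refine lt_of_le_of_lt h1 ?_
    rcases le_or_gt |(n : ℝ)| M with h2 | h2
    · have h3 : |(n : ℝ)| ^ (l : ℕ) ≤ (M : ℝ) ^ d :=
        (pow_le_pow_left₀ (abs_nonneg _) h2 _).trans (pow_le_pow_right₀ hM1 l.isLt.le)
      calc ε * |(n : ℝ)| ^ (l : ℕ) ≤ ε * (M : ℝ) ^ d := mul_le_mul_of_nonneg_left h3 hε.le
        _ ≤ ε * ((M : ℝ) ^ d + 1) := by nlinarith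
        _ < η := by rwa [lt_div_iff₀ (by positivity)] at hεlt
    · have hn1 : 1 ≤ |(n : ℝ)| := hM1.trans h2.le
      have hn0 : 0 < |(n : ℝ)| := by linarith
      have h3 : |(n : ℝ)| ^ (l : ℕ) ≤ |(n : ℝ)| ^ (d - 1) :=
        pow_le_pow_right₀ hn1 (by have := l.isLt; omega)
      have h4 : ε * |(n : ℝ)| ^ d ≤ U * d.factorial := by
        have h5 : |rt d n| = |(n : ℝ)| ^ d / d.factorial := by
          unfold rt
          rw [abs_div, abs_pow, abs_of_pos hfac]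
        rw [h5, ← mul_div_assoc, div_le_iff₀ hfac] at hn
        exact hn
      have h6 : |(n : ℝ)| ^ d = |(n : ℝ)| ^ (d - 1) * |(n : ℝ)| := by
        rw [← pow_succ]; congr 1; omega
      have h7 : ε * |(n : ℝ)| ^ (d - 1) * |(n : ℝ)| ≤ U * d.factorial := by
        rw [mul_assoc, ← h6]; exact h4
      have h8 : U * d.factorial < M * η := by rwa [div_lt_iff₀ hη] at hM
      have h9 : ε * |(n : ℝ)| ^ (d - 1) * |(n : ℝ)| < η * |(n : ℝ)| := by
        nlinarith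
      have h10 : ε * |(n : ℝ)| ^ (d - 1) < η := lt_of_mul_lt_mul_right h9 hn0.le
      exact lt_of_le_of_lt (mul_le_mul_of_nonneg_left h3 hε.le) h10
  have hs : ε * rt d n ∈ Set.Icc (-U) U := by
    rw [Set.mem_Icc, ← abs_le, abs_mul, abs_of_pos hε]
    exact hn
  have hfin := hball htη _ hs
  -- rewrite the integral
  set V : 𝔤 := ∑ l ∈ Ico (d + 1) c, ((n : ℝ) ^ l / l.factorial) • (B ^ l) (ε • Y) with hV
  have hVK : V ∈ K := by
    refine K.toSubmodule.sum_mem fun l hl' => K.toSubmodule.smul_mem _ ?_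
    rw [mem_Ico] at hl'
    rw [map_smul]
    exact K.toSubmodule.smul_mem _ (hl l (by omega))
  have htex : tex c B n (ε • Y) = Φ t (ε * rt d n) + V := by
    rw [tex_apply, ← sum_range_add_sum_Ico _ hdc, sum_range_succ, sum_range]
    simp only [hΦ, hV]
    congr 2
    · refine sum_congr rfl fun l _ => ?_
      rw [map_smul, smul_smul]
      congr 1
      simp only [ht]
      ring
    · rw [map_smul, smul_smul, hW]
      congr 1
      unfold rt
      ring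
  have hTn := (act_pw hT).mp n
  have e0 : ∀ q, ((T.toEquiv : Equiv.Perm X) ^ n) q = pw T n q := fun q => rfl
  have e1 : ∫ p, ‖f (((T.toEquiv : Equiv.Perm X) ^ n) (E (ε • Y) p)) -
      f (E ((ε * rt d n) • W) (((T.toEquiv : Equiv.Perm X) ^ n) p))‖ ∂μ =
      ∫ p, ‖f (E (Φ t (ε * rt d n)) (pw T n p)) - f (E ((ε * rt d n) • W) (pw T n p))‖ ∂μ := by
    apply integral_congr_ae
    have g1 := (pw_conj hT hE hc1 hB h n (ε • Y)).fn hfB.meas
    have g2 := sameOn_fn (quot hE K (Φ t (ε * rt d n)) V hVK) hf.1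
    have g3 := hTn.quasiMeasurePreserving.ae_eq_comp g2
    filter_upwards [g1, g3] with p k1 k2
    simp only [Function.comp_apply] at k1 k2
    rw [e0, e0, k1, htex, k2]
  have e2 : ∫ p, ‖f (E (Φ t (ε * rt d n)) (pw T n p)) - f (E ((ε * rt d n) • W) (pw T n p))‖ ∂μ =
      ∫ p, ‖f (E (Φ t (ε * rt d n)) p) - f (E ((ε * rt d n) • W) p)‖ ∂μ :=
    comp_int hTn (g := fun p => ‖f (E (Φ t (ε * rt d n)) p) - f (E ((ε * rt d n) • W) p)‖)
      ((hfB.comp (hE.mp _).measurable).meas.sub (hfB.comp (hE.mp _).measurable).meas).norm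
  rw [e1, e2]
  exact hfin.le

/-- the induction on the ideals -/
theorem nil_main {T : X ≃ᵐ X} (hT : MeasurePreserving T μ μ) (hE : LieAct μ E)
    (I : LieIdeal ℝ 𝔤) {cI : ℕ} (hcI : lc I cI = ⊥) (B : LieDerivation ℝ 𝔤 𝔤)
    {c : ℕ} (hc1 : 1 ≤ c) (hB : (B : 𝔤 →ₗ[ℝ] 𝔤) ^ c = 0) (hBI : ∀ Y, B Y ∈ I)
    (h : ∀ Y, Same μ (T ∘ E Y) (E (tex c (B : 𝔤 →ₗ[ℝ] 𝔤) 1 Y) ∘ T)) (k : ℕ) (L : LieIdeal ℝ 𝔤)
    (hL : ∀ Y, B Y ∈ L) (hL' : ∀ K : LieIdeal ℝ 𝔤, (∀ Y, B Y ∈ K) → L ≤ K)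
    (hmix : MixOn μ T (fun A => MeasurableSet[mK μ E (L : Set 𝔤)] A) k) :
    ∀ K : LieIdeal ℝ 𝔤, K ≤ L → (∀ Y ∈ K, B Y ∈ K) →
      MixOn μ T (fun A => MeasurableSet[mK μ E (K : Set 𝔤)] A) k := by
  have hwf := (LieSubmodule.wellFoundedGT_of_noetherian ℝ 𝔤 𝔤).wf
  intro K
  induction K using hwf.induction with
  | _ K ih =>
  intro hKL hK
  set BL : Module.End ℝ 𝔤 := (B : 𝔤 →ₗ[ℝ] 𝔤) with hBL
  have hBLa : ∀ Y, BL Y = B Y := fun Y => rfl
  by_cases hall : ∀ Y, B Y ∈ K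
  · intro A hA ε hε
    exact hmix A (fun i => ⟨(hA i).1, (hA i).1, fun V hV => (hA i).2.2 V (hL' K hall hV)⟩) ε hε
  · push Not at hall
    obtain ⟨Y, hY⟩ := hall
    classical
    have hex : ∃ l, (BL ^ l) Y ∈ K := ⟨c, by rw [hB]; exact K.toSubmodule.zero_mem⟩
    set l₀ := Nat.find hex with hl₀
    have hl₀mem : (BL ^ l₀) Y ∈ K := Nat.find_spec hex
    have h0 : l₀ ≠ 0 := by
      intro h
      rw [h, pow_zero, Module.End.one_apply] at hl₀mem
      exact hY (hK _ hl₀mem)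
    have h1 : l₀ ≠ 1 := by
      intro h
      rw [h, pow_one] at hl₀mem
      exact hY hl₀mem
    obtain ⟨e, he⟩ : ∃ e, l₀ = e + 2 := ⟨l₀ - 2, by omega⟩
    have hnot : (BL ^ (e + 1)) Y ∉ K := Nat.find_min hex (by omega)
    have hpow : ∀ l, e + 1 < l → (BL ^ l) Y ∈ K := by
      intro l hl
      obtain ⟨l', rfl⟩ : ∃ l', l = l' + (e + 2) := ⟨l - (e + 2), by omega⟩
      rw [pow_add, Module.End.mul_apply]
      apply pow_mem_of_stable K hK
      rw [← he]; exact hl₀mem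
    have hdc : e + 1 + 1 ≤ c := by
      by_contra hcon
      apply hnot
      rw [← Nat.add_sub_cancel' (show c ≤ e + 1 by omega), pow_add, hB, zero_mul]
      exact K.toSubmodule.zero_mem
    set W := (BL ^ (e + 1)) Y with hW
    have hWI : W ∈ I := by rw [hW, pow_succ', Module.End.mul_apply]; exact hBI _
    have hWL : W ∈ L := by rw [hW, pow_succ', Module.End.mul_apply]; exact hL _
    have hBW : ∀ l, 1 ≤ l → (BL ^ l) W ∈ K := by
      intro l hl
      rw [hW, ← Module.End.mul_apply, ← pow_add]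
      exact hpow _ (by omega)
    set K' : LieIdeal ℝ 𝔤 := K ⊔ LieSubmodule.lieSpan ℝ 𝔤 {W} with hK'
    have hWK' : W ∈ K' := (le_sup_right : _ ≤ K') (LieSubmodule.subset_lieSpan rfl)
    have hKK' : K < K' := by
      refine lt_of_le_of_ne le_sup_left fun h2 => ?_
      rw [← h2] at hWK'
      exact hnot hWK'
    have hK'L : K' ≤ L := sup_le hKL (LieSubmodule.lieSpan_le.2 (by simpa using hWL))
    have hK'B : ∀ V ∈ K', B V ∈ K' := by
      let Nn : LieIdeal ℝ 𝔤 :=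
        { carrier := {V | V ∈ K' ∧ B V ∈ K'}
          zero_mem' := ⟨K'.toSubmodule.zero_mem, by rw [map_zero]; exact K'.toSubmodule.zero_mem⟩
          add_mem' := by
            rintro a b ⟨g1, g2⟩ ⟨g3, g4⟩
            exact ⟨K'.toSubmodule.add_mem g1 g3, by rw [map_add]; exact K'.toSubmodule.add_mem g2 g4⟩
          smul_mem' := by
            rintro t a ⟨g1, g2⟩
            exact ⟨K'.toSubmodule.smul_mem t g1, by rw [map_smul]; exact K'.toSubmodule.smul_mem t g2⟩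
          lie_mem := by
            rintro Z V ⟨g1, g2⟩
            refine ⟨K'.lie_mem g1, ?_⟩
            rw [LieDerivation.apply_lie_eq_add]
            refine K'.toSubmodule.add_mem (K'.lie_mem g2) ?_
            exact K'.lie_mem g1 }
      have hle : K' ≤ Nn := by
        refine sup_le (fun V hV => ⟨hKK'.le hV, hKK'.le (hK V hV)⟩) (LieSubmodule.lieSpan_le.2 ?_)
        intro V hV
        rw [Set.mem_singleton_iff] at hV
        subst hV
        refine ⟨hWK', hKK'.le ?_⟩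
        have := hBW 1 le_rfl
        rwa [pow_one] at this
      intro V hV
      exact (hle hV).2
    have hmixK' := ih K' hKK' hK'L hK'B
    refine reduction_on hT (mK_le μ E _) (T_meas hT h K hK) (T_meas (hT.symm T) (symm_conj hT hc1 hB h) K hK)
      (flow_on hE K W) ?_ (fun ε => hE.mp _) (fun ε => conj_meas hE K (ε • Y)) (rate_rt (d := e + 1) (by omega))
      (shears_nil hT hE hc1 hB h K Y (by omega) hdc hpow) k ?_
    · intro u A hA
      have g1 := h (u • W) A hA.1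
      have g2 : ∃ V ∈ K, tex c BL 1 (u • W) = u • W + V := by
        refine ⟨∑ l ∈ Ico 1 c, ((1 : ℝ) ^ l / l.factorial) • (BL ^ l) (u • W), ?_, ?_⟩
        · refine K.toSubmodule.sum_mem fun l hl' => K.toSubmodule.smul_mem _ ?_
          rw [mem_Ico] at hl'
          rw [map_smul]
          exact K.toSubmodule.smul_mem _ (hBW l hl'.1)
        · rw [tex_apply, ← sum_range_add_sum_Ico _ hc1]
          simp
      obtain ⟨V, hV, hVe⟩ := g2
      rw [hVe] at g1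
      exact g1.trans (pre_ae hT (quot hE K (u • W) V hV A hA))
    · intro A hA ε hε
      exact hmixK' A (fun i => ⟨(hA i).1, mautner hE I hcI K hWI (hA i).2.1 (hA i).2.2⟩) ε hε

/-- a nilpotent ideal has a terminating central series -/
theorem lc_of_nilpotent (I : LieIdeal ℝ 𝔤) (hI : LieRing.IsNilpotent I) : ∃ c, lc I c = ⊥ := by
  have key : ∀ i, ∀ x ∈ lc I i, ∃ hx : x ∈ I, (⟨x, hx⟩ : I) ∈ LieModule.lowerCentralSeries ℝ I I i := by
    intro i
    induction i with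
    | zero => intro x hx; exact ⟨hx, by simp⟩
    | succ i ih =>
      intro x hx
      have hx' : x ∈ (⁅I, lc I i⁆ : LieIdeal ℝ 𝔤) := hx
      clear hx
      rw [← LieSubmodule.mem_toSubmodule, LieSubmodule.lieIdeal_oper_eq_linear_span] at hx'
      induction hx' using Submodule.span_induction with
      | mem y hy =>
        obtain ⟨a, b, rfl⟩ := hy
        obtain ⟨hb, hb'⟩ := ih b b.2
        refine ⟨I.lie_mem hb, ?_⟩
        rw [LieModule.lowerCentralSeries_succ]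
        exact LieSubmodule.lie_mem_lie (LieSubmodule.mem_top (a : I)) hb'
      | zero => exact ⟨I.toSubmodule.zero_mem, (LieModule.lowerCentralSeries ℝ I I (i + 1)).toSubmodule.zero_mem⟩
      | add a b _ _ ha hb =>
        obtain ⟨ha1, ha2⟩ := ha
        obtain ⟨hb1, hb2⟩ := hb
        exact ⟨I.toSubmodule.add_mem ha1 hb1,
          (LieModule.lowerCentralSeries ℝ I I (i + 1)).toSubmodule.add_mem ha2 hb2⟩
      | smul t a _ ha =>
        obtain ⟨ha1, ha2⟩ := ha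
        exact ⟨I.toSubmodule.smul_mem t ha1,
          (LieModule.lowerCentralSeries ℝ I I (i + 1)).toSubmodule.smul_mem t ha2⟩
  obtain ⟨c, hc⟩ := (LieModule.isNilpotent_iff ℝ I I).1 hI
  refine ⟨c, ?_⟩
  rw [eq_bot_iff]
  intro x hx
  obtain ⟨hx1, hx2⟩ := key c x hx
  rw [hc] at hx2
  have : (⟨x, hx1⟩ : I) = 0 := by simpa using hx2
  simpa using congrArg Subtype.val this

end Pool.Agent.W42.RL
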