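import Mathlib
import Pool.Agent.W42.RL.Fin

/-!
# Multiple mixing of unipotent elements of Lie group actions

Let `G` be a connected Lie group with Lie algebra `𝔤`, acting continuously by measure preserving
maps on a probability space, and let `g` be an element of the nilradical of `G` (any element, if
`G` is nilpotent).  We prove, for every `k`: `g` is mixing of multiplicity `k` if and only if it is
mixing of multiplicity `k` on the `σ`-algebra of the sets which are invariant under the normal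
subgroup generated by the commutators `[g, G]`.  In particular, if this subgroup acts ergodically,
then `g` is mixing of all orders.

More generally the result holds for automorphisms `T` of the probability space which are not in the
group but normalise its action by `exp B`, where `B` is a nilpotent derivation of `𝔤` with values in
a nilpotent ideal: this includes affine maps, and skew products over arbitrary mixing systems.
-/

set_option autoImplicit false

namespace Pool.Agent.W42.RL.UnipotentElements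

open MeasureTheory Filter Topology

variable {X : Type} [MeasurableSpace X]

/-- `T` is mixing of multiplicity `k` for the sets in the class `Q`: for all measurable sets
`A 0, ..., A k` in `Q`, the measure of `⋂ T^{-s i} (A i)` tends to `∏ μ (A i)` as all the gaps
`m j = s (j+1) - s j` between `0 = s 0 < s 1 < ... < s k` tend to infinity. -/
def MixOn (μ : Measure X) (T : X → X) (Q : Set X → Prop) (k : ℕ) : Prop :=
  ∀ A : ℕ → Set X, (∀ i, MeasurableSet (A i) ∧ Q (A i)) → ∀ ε : ℝ, 0 < ε →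
    ∃ N : ℕ, ∀ m : ℕ → ℕ, (∀ j < k, N ≤ m j) →
      |μ.real (⋂ i ∈ Finset.range (k + 1), T^[∑ j ∈ Finset.range i, m j] ⁻¹' A i)
          - ∏ i ∈ Finset.range (k + 1), μ.real (A i)| < ε

/-- The maps `S` and `S'` agree on the measure algebra of `μ` (on a standard space: almost
everywhere). -/
def Same (μ : Measure X) (S S' : X → X) : Prop :=
  ∀ A, MeasurableSet A → S ⁻¹' A =ᵐ[μ] S' ⁻¹' A

/-- `f` is a bounded measurable function. -/
def Bd (f : X → ℂ) : Prop := Measurable f ∧ ∃ C : ℝ, ∀ p, ‖f p‖ ≤ C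

variable {𝔤 : Type} [LieRing 𝔤] [LieAlgebra ℝ 𝔤] [FiniteDimensional ℝ 𝔤] [TopologicalSpace 𝔤]
  [IsTopologicalAddGroup 𝔤] [ContinuousSMul ℝ 𝔤] [T2Space 𝔤]

/-- `E` is a continuous measure preserving action of a connected Lie group with Lie algebra `𝔤`,
written in exponential coordinates: `E Y` is the action of `exp Y`.  The axioms are those laws of
an action which we need: `exp 0 = 1`, `exp ((s + t) Y) = exp (s Y) exp (t Y)`,
`exp Y exp Z = exp (e^{ad Y} Z) exp Y`, `exp (Y + Z) = lim (exp (Y / n) exp (Z / n))^n`, and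
continuity of the action in the mean.  Every continuous measure preserving action of such a group
gives an `E` with these properties. -/
structure LieAction (μ : Measure X) (E : 𝔤 → X → X) : Prop where
  mp : ∀ Y, MeasurePreserving (E Y) μ μ
  zero : Same μ (E 0) id
  line : ∀ (Y : 𝔤) (s t : ℝ), Same μ (E ((s + t) • Y)) (E (s • Y) ∘ E (t • Y))
  conj : ∀ Y Z Z' : 𝔤,
    HasSum (fun l : ℕ => ((l.factorial : ℝ)⁻¹) • ((LieAlgebra.ad ℝ 𝔤 Y) ^ l) Z) Z' →
    Same μ (E Y ∘ E Z) (E Z' ∘ E Y)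
  cont : ∀ f : X → ℂ, Bd f → ∀ Y₀,
    Tendsto (fun Y => ∫ p, ‖f (E Y p) - f (E Y₀ p)‖ ∂μ) (𝓝 Y₀) (𝓝 0)
  trotter : ∀ (Y Z : 𝔤) (f : X → ℂ), Bd f → Tendsto (fun n : ℕ =>
    ∫ p, ‖f ((E ((n : ℝ)⁻¹ • Y) ∘ E ((n : ℝ)⁻¹ • Z))^[n] p) - f (E (Y + Z) p)‖ ∂μ) atTop (𝓝 0)

/-- `A` is almost invariant under the action of `exp Y` for all `Y` in `K`. -/
def Inv (μ : Measure X) (E : 𝔤 → X → X) (K : Set 𝔤) (A : Set X) : Prop :=
  ∀ Y ∈ K, E Y ⁻¹' A =ᵐ[μ] A

/-- **Multiple mixing of unipotent automorphisms of Lie group actions.**  Let `E` be a continuous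
measure preserving action of a connected Lie group with Lie algebra `𝔤` on a probability space, and
let `T` be an automorphism of the space which normalises the action by `e^B`:
`T exp(Y) = exp(e^B Y) T`, where `B` is a nilpotent derivation of `𝔤` with values in a nilpotent
ideal `I`.  Let `L` be the ideal of `𝔤` generated by the image of `B`.  Then for every `k`, `T` is
mixing of multiplicity `k` if and only if it is mixing of multiplicity `k` on the sets invariant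
under `exp L`; and if these sets have measure zero or one, `T` is mixing of every multiplicity. -/
theorem result (μ : Measure X) [IsProbabilityMeasure μ] (E : 𝔤 → X → X) (hE : LieAction μ E)
    (T : X ≃ᵐ X) (hT : MeasurePreserving T μ μ) (I : LieIdeal ℝ 𝔤) (hI : LieRing.IsNilpotent I)
    (B : LieDerivation ℝ 𝔤 𝔤) (hB : IsNilpotent (B : 𝔤 →ₗ[ℝ] 𝔤)) (hBI : ∀ Y, B Y ∈ I)
    (hTE : ∀ Y Y' : 𝔤, HasSum (fun l : ℕ => ((l.factorial : ℝ)⁻¹) • ((B : 𝔤 →ₗ[ℝ] 𝔤) ^ l) Y) Y' →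
      Same μ (T ∘ E Y) (E Y' ∘ T)) :
    (∀ k : ℕ, MixOn μ T (fun _ => True) k ↔
      MixOn μ T (Inv μ E (LieSubmodule.lieSpan ℝ 𝔤 (Set.range B) : LieIdeal ℝ 𝔤)) k) ∧
    ((∀ A, MeasurableSet A → Inv μ E (LieSubmodule.lieSpan ℝ 𝔤 (Set.range B) : LieIdeal ℝ 𝔤) A →
        μ A = 0 ∨ μ A = 1) → ∀ k : ℕ, MixOn μ T (fun _ => True) k) := by
  have hE' : Pool.Agent.W42.RL.LieAct μ E :=
    ⟨hE.mp, hE.zero, hE.line, hE.conj, fun f hf => hE.cont f ⟨hf.1, hf.2⟩,
      fun Y Z f hf => hE.trotter Y Z f ⟨hf.1, hf.2⟩⟩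
  obtain ⟨c₀, hc₀⟩ := hB
  obtain ⟨cI, hcI⟩ := Pool.Agent.W42.RL.lc_of_nilpotent I hI
  have hB1 : (B : 𝔤 →ₗ[ℝ] 𝔤) ^ (c₀ + 1) = 0 := by rw [pow_succ, hc₀, zero_mul]
  have hconj : ∀ Y, Pool.Agent.W42.RN.Same μ (T ∘ E Y)
      (E (Pool.Agent.W42.RL.tex (c₀ + 1) (B : 𝔤 →ₗ[ℝ] 𝔤) 1 Y) ∘ T) := by
    intro Y
    apply hTE
    rw [Pool.Agent.W42.RL.tex_apply]
    have e : ∑ l ∈ Finset.range (c₀ + 1), ((1 : ℝ) ^ l / l.factorial) • ((B : 𝔤 →ₗ[ℝ] 𝔤) ^ l) Y =
        ∑ l ∈ Finset.range (c₀ + 1), ((l.factorial : ℝ)⁻¹) • ((B : 𝔤 →ₗ[ℝ] 𝔤) ^ l) Y :=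
      Finset.sum_congr rfl fun l _ => by rw [one_pow, one_div]
    rw [e]
    apply hasSum_sum_of_ne_finset_zero
    intro l hl
    rw [Finset.mem_range, not_lt] at hl
    obtain ⟨l', rfl⟩ := Nat.exists_eq_add_of_le hl
    rw [pow_add, hB1, zero_mul, LinearMap.zero_apply, smul_zero]
  have key : ∀ k : ℕ,
      MixOn μ T (Inv μ E (LieSubmodule.lieSpan ℝ 𝔤 (Set.range B) : LieIdeal ℝ 𝔤)) k →
      MixOn μ T (fun _ => True) k := by
    intro k hk
    have h1 := Pool.Agent.W42.RL.nil_main hT hE' I hcI B (by omega) hB1 hBI hconj k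
      (LieSubmodule.lieSpan ℝ 𝔤 (Set.range B)) (fun Y => LieSubmodule.subset_lieSpan ⟨Y, rfl⟩)
      (fun K hK => LieSubmodule.lieSpan_le.2 (by rintro _ ⟨Y, rfl⟩; exact hK Y))
      (fun A hA ε hε => hk A (fun i => ⟨(hA i).1, (hA i).2.2⟩) ε hε) ⊥ bot_le
      (fun Y hY => by
        rw [LieSubmodule.mem_bot] at hY
        rw [hY, map_zero]
        exact LieSubmodule.zero_mem _)
    intro A hA ε hε
    refine h1 A (fun i => ⟨(hA i).1, (hA i).1, fun Y hY => ?_⟩) ε hε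
    have hY0 : Y = 0 := by simpa using hY
    rw [hY0]
    exact hE.zero (A i) (hA i).1
  refine ⟨fun k => ⟨fun h A hA => h A fun i => ⟨(hA i).1, trivial⟩, key k⟩, fun herg k => ?_⟩
  exact key k (Pool.Agent.W42.RN.mixOn_trivial
    (Q := Inv μ E (LieSubmodule.lieSpan ℝ 𝔤 (Set.range B) : LieIdeal ℝ 𝔤)) hT herg k)

/-- **Elements of a Lie group in its nilradical.**  If `T` is the action of `exp X₀`, where `X₀`
lies in a nilpotent ideal of `𝔤`, then for every `k` the automorphism `T` is mixing of multiplicity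
`k` if and only if it is so on the sets invariant under the ideal generated by `[X₀, 𝔤]`. -/
theorem elements (μ : Measure X) [IsProbabilityMeasure μ] (E : 𝔤 → X → X) (hE : LieAction μ E)
    (T : X ≃ᵐ X) (I : LieIdeal ℝ 𝔤) (hI : LieRing.IsNilpotent I) (X₀ : 𝔤) (hX : X₀ ∈ I)
    (hT : MeasurePreserving T μ μ) (hTX : Same μ T (E X₀)) (k : ℕ) :
    MixOn μ T (fun _ => True) k ↔
      MixOn μ T (Inv μ E (LieSubmodule.lieSpan ℝ 𝔤 {Z : 𝔤 | ∃ Y, Z = ⁅X₀, Y⁆} : LieIdeal ℝ 𝔤)) k := by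
  obtain ⟨cI, hcI⟩ := Pool.Agent.W42.RL.lc_of_nilpotent I hI
  have had := Pool.Agent.W42.RL.ad_pow_zero I hcI hX
  have hrange : Set.range (LieDerivation.ad ℝ 𝔤 X₀) = {Z : 𝔤 | ∃ Y, Z = ⁅X₀, Y⁆} := by
    ext Z
    constructor
    · rintro ⟨Y, rfl⟩
      exact ⟨Y, LieDerivation.ad_apply_apply ..⟩
    · rintro ⟨Y, rfl⟩
      exact ⟨Y, LieDerivation.ad_apply_apply ..⟩
  have hadl : ((LieDerivation.ad ℝ 𝔤 X₀ : LieDerivation ℝ 𝔤 𝔤) : 𝔤 →ₗ[ℝ] 𝔤) =
      LieAlgebra.ad ℝ 𝔤 X₀ := by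
    ext Y
    exact LieDerivation.ad_apply_apply ..
  have h := (result μ E hE T hT I hI (LieDerivation.ad ℝ 𝔤 X₀) ?_ ?_ ?_).1 k
  · rw [hrange] at h
    exact h
  · rw [hadl]
    exact ⟨_, had⟩
  · intro Y
    rw [LieDerivation.ad_apply_apply, ← lie_skew]
    exact I.toSubmodule.neg_mem (I.lie_mem hX)
  · intro Y Y' hY A hA
    rw [hadl] at hY
    have h1 : (T ∘ E Y) ⁻¹' A =ᵐ[μ] (E X₀ ∘ E Y) ⁻¹' A :=
      (hE.mp Y).quasiMeasurePreserving.preimage_ae_eq (hTX A hA)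
    have h2 : (E X₀ ∘ E Y) ⁻¹' A =ᵐ[μ] (E Y' ∘ E X₀) ⁻¹' A := hE.conj X₀ Y Y' hY A hA
    have h3 : T ⁻¹' (E Y' ⁻¹' A) =ᵐ[μ] E X₀ ⁻¹' (E Y' ⁻¹' A) := hTX _ ((hE.mp Y').measurable hA)
    exact (h1.trans h2).trans h3.symm

end Pool.Agent.W42.RL.UnipotentElements
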